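import Mathlib

namespace Pool.Agent.Results.MP_37c1b2_nt.Q1

open Filter Topology Finset

/-- `A` has density `d`: `A(x)/x → d` as the real number `x → ∞`. -/
def HasDensity (A : Set ℕ) (d : ℝ) : Prop :=
  Tendsto (fun x : ℝ => (({a ∈ A | (a : ℝ) ≤ x}.ncard : ℕ) : ℝ) / x) atTop (𝓝 d)

/-- no positive `n` has `n, 2n, 3n` all in `A`. -/
def Free (A : Set ℕ) : Prop := ∀ n : ℕ, 0 < n → ¬ (n ∈ A ∧ 2 * n ∈ A ∧ 3 * n ∈ A)

open Classical in
noncomputable def cnt (P : ℕ → Prop) (N : ℕ) : ℕ := ((Icc 1 N).filter P).card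

lemma ncard_eq (A : Set ℕ) (hA : ∀ a ∈ A, 0 < a) (x : ℝ) (hx : 0 ≤ x) :
    {a ∈ A | (a : ℝ) ≤ x}.ncard = cnt (· ∈ A) ⌊x⌋₊ := by
  classical
  unfold cnt
  rw [← Set.ncard_coe_finset]
  congr 1
  ext a
  simp only [Set.mem_ofPred_eq, coe_filter, mem_Icc, Nat.le_floor_iff hx]
  constructor
  · rintro ⟨h1, h2⟩; exact ⟨⟨hA a h1, h2⟩, h1⟩
  · rintro ⟨⟨_, h2⟩, h1⟩; exact ⟨h1, h2⟩

def E (n : ℕ) : Prop := Even (padicValNat 3 n)

lemma E_three {n : ℕ} (hn : 0 < n) : E (3 * n) ↔ ¬ E n := by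
  have : Fact (Nat.Prime 3) := ⟨by norm_num⟩
  unfold E
  rw [padicValNat.mul (by norm_num) hn.ne', padicValNat_self, add_comm, Nat.even_add_one]

lemma E_two {n : ℕ} (hn : 0 < n) : E (2 * n) ↔ E n := by
  have : Fact (Nat.Prime 3) := ⟨by norm_num⟩
  unfold E
  rw [padicValNat.mul (by norm_num) hn.ne', padicValNat.eq_zero_of_not_dvd (by norm_num), zero_add]

lemma E_of_not_dvd {n : ℕ} (hn : ¬ 3 ∣ n) : E n := by
  unfold E
  rw [padicValNat.eq_zero_of_not_dvd hn]; exact Even.zero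

lemma cnt_add (P Q : ℕ → Prop) (N : ℕ) :
    cnt (fun n => P n ∧ Q n) N + cnt (fun n => P n ∧ ¬ Q n) N = cnt P N := by
  classical
  unfold cnt
  rw [← Finset.card_filter_add_card_filter_not (s := (Icc 1 N).filter P) Q, filter_filter,
    filter_filter]
  congr 1 <;> congr 1 <;> ext <;> simp

lemma cnt_compl (P : ℕ → Prop) (N : ℕ) : cnt P N + cnt (fun n => ¬ P n) N = N := by
  classical
  unfold cnt
  have := Finset.card_filter_add_card_filter_not (s := Icc 1 N) P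
  simp only [Nat.card_Icc, add_tsub_cancel_right] at this
  convert this

lemma cnt_le (P : ℕ → Prop) (N : ℕ) : cnt P N ≤ N := by
  have := cnt_compl P N; omega

lemma cnt_mul_le (P Q : ℕ → Prop) (c : ℕ) (hc : 0 < c) (N M : ℕ) (hM : c * N ≤ M)
    (h : ∀ n, 0 < n → P n → Q (c * n)) : cnt P N ≤ cnt Q M := by
  classical
  unfold cnt
  refine card_le_card_of_injOn (fun n => c * n) ?_ ?_
  · intro n hn
    simp only [coe_filter, mem_Icc, Set.mem_ofPred_eq] at hn ⊢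
    refine ⟨⟨Nat.mul_pos hc hn.1.1, le_trans (Nat.mul_le_mul_left c hn.1.2) hM⟩, h n hn.1.1 hn.2⟩
  · intro a _ b _ hab
    exact Nat.eq_of_mul_eq_mul_left hc hab

lemma cntE_rec (N : ℕ) : cnt E N + cnt E (N / 3) = N := by
  classical
  have h1 := cnt_compl E N
  have h2 : cnt E (N / 3) = cnt (fun n => ¬ E n) N := by
    unfold cnt
    refine card_bij (fun n _ => 3 * n) ?_ ?_ ?_
    · intro n hn
      simp only [mem_filter, mem_Icc] at hn ⊢
      refine ⟨⟨by omega, by omega⟩, ?_⟩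
      rw [E_three hn.1.1]; exact fun h => h hn.2
    · intro a _ b _ hab; omega
    · intro m hm
      simp only [mem_filter, mem_Icc] at hm
      have h3 : 3 ∣ m := by
        by_contra h; exact hm.2 (E_of_not_dvd h)
      obtain ⟨n, rfl⟩ := h3
      refine ⟨n, ?_, rfl⟩
      simp only [mem_filter, mem_Icc]
      refine ⟨⟨by omega, by omega⟩, ?_⟩
      have := hm.2
      rw [E_three (by omega)] at this
      exact not_not.1 this
  omega

lemma cntE_bound (N : ℕ) : |(cnt E N : ℝ) - 3 / 4 * N| ≤ √N := by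
  induction N using Nat.strong_induction_on with
  | _ N ih =>
    rcases Nat.eq_zero_or_pos N with rfl | hN
    · have := cnt_le E 0
      have h : cnt E 0 = 0 := by omega
      simp [h]
    have h1 := ih (N / 3) (by omega)
    have h2 : (cnt E N : ℝ) + cnt E (N / 3) = N := by exact_mod_cast cntE_rec N
    have h3 : (3 : ℝ) * (N / 3 : ℕ) ≤ N := by exact_mod_cast (by omega : 3 * (N / 3) ≤ N)
    have h4 : (N : ℝ) ≤ 3 * (N / 3 : ℕ) + 2 := by exact_mod_cast (by omega : N ≤ 3 * (N / 3) + 2)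
    have h5 : √((N / 3 : ℕ) : ℝ) + 1 / 2 ≤ √N := by
      rcases Nat.lt_or_ge N 3 with h | h
      · have : N / 3 = 0 := by omega
        rw [this]
        have : (1 : ℝ) ≤ √N := Real.one_le_sqrt.2 (by exact_mod_cast hN)
        simp only [Nat.cast_zero, Real.sqrt_zero]; linarith
      · have hq : (1 : ℝ) ≤ (N / 3 : ℕ) := by exact_mod_cast (by omega : 1 ≤ N / 3)
        have hs := Real.sq_sqrt (show (0 : ℝ) ≤ (N / 3 : ℕ) by positivity)
        have hs1 : (1 : ℝ) ≤ √((N / 3 : ℕ) : ℝ) := Real.one_le_sqrt.2 hq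
        apply Real.le_sqrt_of_sq_le
        nlinarith
    rw [abs_le] at h1 ⊢
    constructor <;> linarith [h1.1, h1.2]

lemma tendsto_E_real :
    Tendsto (fun x : ℝ => (cnt E ⌊x⌋₊ : ℝ) / x) atTop (𝓝 (3 / 4)) := by
  have h0 : Tendsto (fun x : ℝ => (√x)⁻¹ + x⁻¹) atTop (𝓝 0) := by
    simpa using (Real.tendsto_sqrt_atTop.inv_tendsto_atTop).add tendsto_inv_atTop_zero
  rw [tendsto_iff_norm_sub_tendsto_zero]
  refine squeeze_zero' (Eventually.of_forall fun _ => norm_nonneg _) ?_ h0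
  filter_upwards [eventually_gt_atTop (0 : ℝ)] with x hx
  have h1 := cntE_bound ⌊x⌋₊
  have h2 := Nat.floor_le hx.le
  have h3 := Nat.lt_floor_add_one x
  have h4 : √((⌊x⌋₊ : ℕ) : ℝ) ≤ √x := Real.sqrt_le_sqrt h2
  have hs : 0 < √x := Real.sqrt_pos.2 hx
  have h5 : (√x)⁻¹ + x⁻¹ = (√x + 1) / x := by
    have := Real.mul_self_sqrt hx.le
    field_simp
    nlinarith
  have h6 : (cnt E ⌊x⌋₊ : ℝ) / x - 3 / 4 = ((cnt E ⌊x⌋₊ : ℝ) - 3 / 4 * x) / x := by
    field_simp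
  rw [h5, h6, Real.norm_eq_abs, abs_div, abs_of_pos hx]
  refine div_le_div_of_nonneg_right ?_ hx.le
  rw [abs_le] at h1 ⊢
  constructor <;> linarith [h1.1, h1.2]

lemma key (A : Set ℕ) (hA : Free A) (N : ℕ) :
    cnt E N ≤ cnt (fun n => n ∉ A ∧ E n) N + cnt (fun n => n ∉ A ∧ E n) (2 * N)
      + cnt (fun n => n ∉ A ∧ ¬ E n) (3 * N) := by
  have h1 := cnt_add E (· ∈ A) N
  have h2 := cnt_add (fun n => E n ∧ n ∈ A) (fun n => 2 * n ∈ A) N
  have h3 : cnt (fun n => E n ∧ ¬ n ∈ A) N ≤ cnt (fun n => n ∉ A ∧ E n) N :=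
    cnt_mul_le _ _ 1 one_pos N N (by omega) fun n _ h => by simpa using h.symm
  have h4 : cnt (fun n => (E n ∧ n ∈ A) ∧ ¬ 2 * n ∈ A) N ≤ cnt (fun n => n ∉ A ∧ E n) (2 * N) :=
    cnt_mul_le _ _ 2 two_pos N _ le_rfl fun n hn h => ⟨h.2, (E_two hn).2 h.1.1⟩
  have h5 : cnt (fun n => (E n ∧ n ∈ A) ∧ 2 * n ∈ A) N ≤ cnt (fun n => n ∉ A ∧ ¬ E n) (3 * N) :=
    cnt_mul_le _ _ 3 three_pos N _ le_rfl fun n hn h =>
      ⟨fun h3 => hA n hn ⟨h.1.2, h.2, h3⟩, fun h3 => (E_three hn).1 h3 h.1.1⟩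
  omega

lemma upper (A : Set ℕ) (hA : Free A) (d : ℝ)
    (hd : Tendsto (fun N : ℕ => (cnt (· ∈ A) N : ℝ) / N) atTop (𝓝 d)) : d ≤ 3 / 4 := by
  by_contra hlt
  push Not at hlt
  set ε := d - 3 / 4 with hε
  have hε0 : 0 < ε := by linarith
  have hE : Tendsto (fun N : ℕ => (cnt E N : ℝ) / N) atTop (𝓝 (3 / 4)) := by
    simpa [Function.comp_def] using tendsto_E_real.comp tendsto_natCast_atTop_atTop
  have e1 := hE.eventually (lt_mem_nhds (show 3 / 4 - ε < 3 / 4 by linarith))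
  have e2 := hd.eventually (lt_mem_nhds (show d - ε / 3 < d by linarith))
  obtain ⟨N0, hN0⟩ := eventually_atTop.1 (e1.and (e2.and (eventually_gt_atTop 0)))
  set b : ℕ → ℝ := fun N => (cnt (fun n => n ∉ A ∧ E n) N : ℝ) with hb
  have step : ∀ N, N0 ≤ N → b (3 * N) ≤ b N + b (2 * N) - ε * N := by
    intro N hN
    obtain ⟨h1, -, h0⟩ := hN0 N hN
    obtain ⟨-, h2, -⟩ := hN0 (3 * N) (by omega)
    have hN' : (0 : ℝ) < N := by exact_mod_cast h0
    rw [lt_div_iff₀ hN'] at h1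
    rw [lt_div_iff₀ (by positivity)] at h2
    have h3 : (cnt E N : ℝ) ≤ b N + b (2 * N) + cnt (fun n => n ∉ A ∧ ¬ E n) (3 * N) := by
      simp only [hb]; exact_mod_cast key A hA N
    have h4 : b (3 * N) + cnt (fun n => n ∉ A ∧ ¬ E n) (3 * N) = cnt (fun n => n ∉ A) (3 * N) := by
      simp only [hb]; exact_mod_cast cnt_add (fun n => n ∉ A) E (3 * N)
    have h5 : (cnt (· ∈ A) (3 * N) : ℝ) + cnt (fun n => n ∉ A) (3 * N) = 3 * N := by
      exact_mod_cast cnt_compl (· ∈ A) (3 * N)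
    push_cast at h2
    have : d = ε + 3 / 4 := by linarith
    rw [this] at h2
    nlinarith
  have ind : ∀ j : ℕ, ∀ N, N0 ≤ N → b (3 ^ j * N) ≤ (1 - j * ε / 3) * (3 ^ j * N) := by
    intro j
    induction j with
    | zero =>
      intro N _
      have : (cnt (fun n => n ∉ A ∧ E n) N : ℝ) ≤ N := by exact_mod_cast cnt_le _ N
      simpa [hb] using this
    | succ j ih =>
      intro N hN
      have h1 := step (3 ^ j * N) (le_trans hN (Nat.le_mul_of_pos_left _ (by positivity)))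
      have h2 := ih N hN
      have h3 := ih (2 * N) (by omega)
      rw [show 3 ^ (j + 1) * N = 3 * (3 ^ j * N) by ring]
      rw [show 3 ^ j * (2 * N) = 2 * (3 ^ j * N) by ring] at h3
      push_cast at h1 h2 h3 ⊢
      have : (1 - (j + 1 : ℝ) * ε / 3) * (3 ^ (j + 1) * N)
          = (1 - j * ε / 3) * (3 ^ j * N) + (1 - j * ε / 3) * (3 ^ j * (2 * N))
            - ε * (3 ^ j * N) := by ring
      linarith
  obtain ⟨j, hj⟩ := exists_nat_gt (3 / ε)
  have h1 := ind j N0 le_rfl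
  have h2 : (0 : ℝ) < 3 ^ j * N0 := by
    have : (0 : ℝ) < N0 := by exact_mod_cast (hN0 N0 le_rfl).2.2
    positivity
  have h3 : 1 - j * ε / 3 < 0 := by
    rw [div_lt_iff₀ hε0] at hj; linarith
  have h4 : 0 ≤ b (3 ^ j * N0) := by simp only [hb]; positivity
  nlinarith

theorem result :
    IsGreatest {d : ℝ | ∃ A : Set ℕ, (∀ a ∈ A, 0 < a) ∧ Free A ∧ HasDensity A d} (3 / 4) := by
  constructor
  · refine ⟨{n | 0 < n ∧ E n}, fun a h => h.1, ?_, ?_⟩
    · rintro n hn ⟨h1, -, h3⟩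
      exact (E_three hn).1 h3.2 h1.2
    · refine tendsto_E_real.congr' ?_
      filter_upwards [eventually_ge_atTop (0 : ℝ)] with x hx
      have := ncard_eq {n | 0 < n ∧ E n} (fun a h => h.1) x hx
      show _ = (({a ∈ {n | 0 < n ∧ E n} | (a : ℝ) ≤ x}.ncard : ℕ) : ℝ) / x
      rw [this]
      congr 2
      unfold cnt
      congr 1
      ext n
      simp only [mem_filter, mem_Icc, Set.mem_ofPred_eq]
      constructor
      · rintro ⟨h1, h2⟩; exact ⟨h1, h1.1, h2⟩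
      · rintro ⟨h1, -, h2⟩; exact ⟨h1, h2⟩
  · rintro d ⟨A, hA, hF, hd⟩
    refine upper A hF d ?_
    have := hd.comp tendsto_natCast_atTop_atTop
    refine this.congr fun N => ?_
    simp only [Function.comp]
    rw [ncard_eq A hA _ (Nat.cast_nonneg N), Nat.floor_natCast]

end Pool.Agent.Results.MP_37c1b2_nt.Q1
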